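import Pool.Agent.H107.SlowKiss

/-! MP_b5f63d_co: `log₂ τ(d) / d` converges if and only if its arithmetic means converge, and the
square of the oscillation of these numbers is at most `32` times the oscillation of the means. The
same for spherical codes of any angle `0 < θ < 2 π`, with `16 log₂ ((1 + 2 s) / s)`,
`s = sin (θ / 2)`, in place of `32`. -/

open Filter Topology

namespace Pool.Agent.Results.MP_b5f63d_co.AveragesDecide

open Pool.Agent.H818R2

/-- `log₂ τ(d) / d` -/
noncomputable def kissRate (d : ℕ) : ℝ := Real.logb 2 (kissing d) / d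

/-- arithmetic mean of `u` over the dimensions `1 ≤ d ≤ N` -/
noncomputable def avg (u : ℕ → ℝ) (N : ℕ) : ℝ := (∑ d ∈ Finset.Icc 1 N, u d) / N

theorem result :
    ((∀ c : ℝ, Tendsto kissRate atTop (𝓝 c) ↔ Tendsto (avg kissRate) atTop (𝓝 c)) ∧
      (limsup kissRate atTop - liminf kissRate atTop) ^ 2 ≤
        32 * (limsup (avg kissRate) atTop - liminf (avg kissRate) atTop)) ∧
    ∀ θ : ℝ, 0 < θ → θ < 2 * Real.pi →
      (∀ c : ℝ, Tendsto (codeRate θ) atTop (𝓝 c) ↔ Tendsto (avg (codeRate θ)) atTop (𝓝 c)) ∧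
      (limsup (codeRate θ) atTop - liminf (codeRate θ) atTop) ^ 2 ≤
        16 * Real.logb 2 ((1 + 2 * Real.sin (θ / 2)) / Real.sin (θ / 2)) *
          (limsup (avg (codeRate θ)) atTop - liminf (avg (codeRate θ)) atTop) := by
  have key : ∀ θ : ℝ, 0 < θ → θ < 2 * Real.pi →
      (∀ c : ℝ, Tendsto (codeRate θ) atTop (𝓝 c) ↔ Tendsto (avg (codeRate θ)) atTop (𝓝 c)) ∧
      (limsup (codeRate θ) atTop - liminf (codeRate θ) atTop) ^ 2 ≤
        16 * Pool.Agent.H107.SlowKiss.K θ *
          (limsup (avg (codeRate θ)) atTop - liminf (avg (codeRate θ)) atTop) := by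
    intro θ h0 h1
    have hs := Pool.Agent.H107.SlowKiss.sin_pos h0 h1
    have hK := Pool.Agent.H107.SlowKiss.K_pos hs
    exact ⟨fun c => Pool.Agent.TH915.HC.tendsto_iff (Pool.Agent.H107.SlowKiss.slow hs),
      Pool.Agent.H107.SlowGen.sq_osc (Pool.Agent.H107.SlowKiss.slow hs) hK (by linarith)⟩
  refine ⟨?_, key⟩
  have h := key (Real.pi / 3) (by positivity) (by linarith [Real.pi_pos])
  rw [Pool.Agent.H107.SlowKiss.K_kiss] at h
  refine ⟨h.1, ?_⟩
  have h2 := h.2
  norm_num at h2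
  exact h2

end Pool.Agent.Results.MP_b5f63d_co.AveragesDecide
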