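import Pool.Agent.H107.SlowKiss

/-! MP_b5f63d_co: every neighbourhood `(x - ε, x + ε)` of every point `x` of `[c_-, c_+]` is visited
by `log₂ τ(d) / d` with upper density at least `ε / 16`. The same for spherical codes of any angle
`0 < θ < 2 π`, with upper density at least `ε / (8 log₂ ((1 + 2 s) / s))`, `s = sin (θ / 2)`. -/

open Filter Topology

namespace Pool.Agent.Results.MP_b5f63d_co.VisitsHavePositiveDensity

open Pool.Agent.H818R2

/-- `log₂ τ(d) / d` -/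
noncomputable def kissRate (d : ℕ) : ℝ := Real.logb 2 (kissing d) / d

theorem result :
    (∀ x ε : ℝ, 0 < ε → ε ≤ 1 → liminf kissRate atTop ≤ x → x ≤ limsup kissRate atTop →
      ∃ᶠ N : ℕ in atTop, ε / 16 * (N : ℝ) ≤
        ({d : ℕ | d ∈ Finset.Icc 1 N ∧ |kissRate d - x| < ε}.ncard : ℝ)) ∧
    ∀ θ : ℝ, 0 < θ → θ < 2 * Real.pi → ∀ x ε : ℝ, 0 < ε → ε ≤ 1 →
      liminf (codeRate θ) atTop ≤ x → x ≤ limsup (codeRate θ) atTop →
      ∃ᶠ N : ℕ in atTop,
        ε / (8 * Real.logb 2 ((1 + 2 * Real.sin (θ / 2)) / Real.sin (θ / 2))) * (N : ℝ) ≤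
          ({d : ℕ | d ∈ Finset.Icc 1 N ∧ |codeRate θ d - x| < ε}.ncard : ℝ) := by
  have key : ∀ θ : ℝ, 0 < θ → θ < 2 * Real.pi → ∀ x ε : ℝ, 0 < ε → ε ≤ 1 →
      liminf (codeRate θ) atTop ≤ x → x ≤ limsup (codeRate θ) atTop →
      ∃ᶠ N : ℕ in atTop, ε / (8 * Pool.Agent.H107.SlowKiss.K θ) * (N : ℝ) ≤
          ({d : ℕ | d ∈ Finset.Icc 1 N ∧ |codeRate θ d - x| < ε}.ncard : ℝ) := by
    intro θ h0 h1 x ε hε hε1 hx1 hx2
    have hs := Pool.Agent.H107.SlowKiss.sin_pos h0 h1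
    have hs1 : Real.sin (θ / 2) ≤ 1 := Real.sin_le_one _
    have hK1 : 1 ≤ Pool.Agent.H107.SlowKiss.K θ := by
      unfold Pool.Agent.H107.SlowKiss.K
      rw [Real.le_logb_iff_rpow_le (by norm_num) (by positivity), Real.rpow_one,
        le_div_iff₀ hs]
      linarith
    exact Pool.Agent.H107.SlowGen.visits_dens (Pool.Agent.H107.SlowKiss.slow hs) (by linarith) hε
      (by linarith) hx1 hx2
  refine ⟨fun x ε hε hε1 hx1 hx2 => ?_, key⟩
  have h := key (Real.pi / 3) (by positivity) (by linarith [Real.pi_pos]) x ε hε hε1 hx1 hx2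
  rw [Pool.Agent.H107.SlowKiss.K_kiss] at h
  refine h.mono fun N hN => ?_
  have e : ε / (8 * 2) = ε / 16 := by norm_num
  rw [e] at hN
  exact hN

end Pool.Agent.Results.MP_b5f63d_co.VisitsHavePositiveDensity
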